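import Mathlib

namespace Pool.Agent.Results.MP_4f615a_lc.No

universe u

/-- formulas in negation normal form -/
inductive Fm
  | lit (p : ℕ) | nlit (p : ℕ) | bot | top | and (φ ψ : Fm) | or (φ ψ : Fm)
  | dia (φ : Fm) | box (φ : Fm)

/-- negation by the De Morgan and modal duality laws -/
def neg : Fm → Fm
  | .lit p => .nlit p
  | .nlit p => .lit p
  | .bot => .top
  | .top => .bot
  | .and φ ψ => .or (neg φ) (neg ψ)
  | .or φ ψ => .and (neg φ) (neg ψ)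
  | .dia φ => .box (neg φ)
  | .box φ => .dia (neg φ)

def iff (φ ψ : Fm) : Fm := .and (.or (neg φ) ψ) (.or (neg ψ) φ)

/-- Kripke semantics -/
def Sat {W : Type} (R : W → W → Prop) (V : ℕ → Set W) : Fm → W → Prop
  | .lit p, w => w ∈ V p
  | .nlit p, w => w ∉ V p
  | .bot, _ => False
  | .top, _ => True
  | .and φ ψ, w => Sat R V φ w ∧ Sat R V ψ w
  | .or φ ψ, w => Sat R V φ w ∨ Sat R V ψ w
  | .dia φ, w => ∃ x, R w x ∧ Sat R V φ x
  | .box φ, w => ∀ x, R w x → Sat R V φ x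

/-- the logic of all finite strict linear orders -/
def GL3 : Set Fm := {φ | ∀ (n : ℕ) (V : ℕ → Set (Fin n)) (w : Fin n), Sat (· < ·) V φ w}

/-- the logic of all finite reflexive linear orders -/
def Grz3 : Set Fm := {φ | ∀ (n : ℕ) (V : ℕ → Set (Fin n)) (w : Fin n), Sat (· ≤ ·) V φ w}

/-- value of a formula in a Boolean algebra with an operator -/
def val {A : Type u} [BooleanAlgebra A] (D : A → A) (θ : ℕ → A) : Fm → A
  | .lit p => θ p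
  | .nlit p => (θ p)ᶜ
  | .bot => ⊥
  | .top => ⊤
  | .and φ ψ => val D θ φ ⊓ val D θ ψ
  | .or φ ψ => val D θ φ ⊔ val D θ ψ
  | .dia φ => D (val D θ φ)
  | .box φ => (D (val D θ φ)ᶜ)ᶜ

def Pos (P : Finset ℕ) : Fm → Prop
  | .nlit p => p ∉ P
  | .and φ ψ => Pos P φ ∧ Pos P ψ
  | .or φ ψ => Pos P φ ∧ Pos P ψ
  | .dia φ => Pos P φ
  | .box φ => Pos P φ
  | _ => True

def MonoIn (L : Set Fm) (P : Finset ℕ) (φ : Fm) : Prop :=
  ∀ (A : Type u) [BooleanAlgebra A] (D : A → A), D ⊥ = ⊥ → (∀ a b, D (a ⊔ b) = D a ⊔ D b) →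
    (∀ ψ ∈ L, ∀ θ, val D θ ψ = ⊤) →
    ∀ θ₁ θ₂ : ℕ → A, (∀ p ∉ P, θ₁ p = θ₂ p) → (∀ p ∈ P, θ₁ p ≤ θ₂ p) →
      val D θ₁ φ ≤ val D θ₂ φ

theorem sat_neg {W : Type} (R : W → W → Prop) (V : ℕ → Set W) (φ : Fm) (w : W) :
    Sat R V (neg φ) w ↔ ¬ Sat R V φ w := by
  induction φ generalizing w with
  | and φ ψ i1 i2 => simp only [neg, Sat, i1, i2]; tauto
  | or φ ψ i1 i2 => simp only [neg, Sat, i1, i2]; tauto
  | dia φ i => simp [neg, Sat, i]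
  | box φ i => simp [neg, Sat, i]
  | _ => simp [neg, Sat]

theorem val_neg {A : Type u} [BooleanAlgebra A] (D : A → A) (θ : ℕ → A) (φ : Fm) :
    val D θ (neg φ) = (val D θ φ)ᶜ := by
  induction φ <;> simp_all [neg, val]

def dp (φ : Fm) : Fm := .or φ (.dia φ)

def Phi (p q r : Fm) : Fm :=
  .or (dp (.and p q)) (.and (neg (dp (neg (.or p (.or q r)))))
    (.or (neg (dp (.and q (neg r)))) (.and (dp (.and p (dp (.and q (neg r)))))
      (neg (dp (.and (.and q (neg r)) (dp (.and (neg q) (dp (.and q (neg r)))))))))))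

def F {W : Type} [LinearOrder W] (p q r : W → Prop) (w : W) : Prop :=
  (∃ x, w ≤ x ∧ p x ∧ q x) ∨ ((¬ ∃ x, w ≤ x ∧ ¬ (p x ∨ q x ∨ r x)) ∧
    ((¬ ∃ x, w ≤ x ∧ q x ∧ ¬ r x) ∨ ((∃ y, w ≤ y ∧ p y ∧ ∃ z, y ≤ z ∧ q z ∧ ¬ r z) ∧
      ¬ ∃ x, w ≤ x ∧ (q x ∧ ¬ r x) ∧ ∃ y, x ≤ y ∧ ¬ q y ∧ ∃ z, y ≤ z ∧ q z ∧ ¬ r z)))

theorem sat_dp {W : Type} [LinearOrder W] {R : W → W → Prop}
    (hR : ∀ a b, (a = b ∨ R a b) ↔ a ≤ b) (V : ℕ → Set W) (φ : Fm) (w : W) :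
    Sat R V (dp φ) w ↔ ∃ x, w ≤ x ∧ Sat R V φ x := by
  simp only [dp, Sat, ← hR]
  constructor
  · rintro (h | ⟨x, h1, h2⟩)
    · exact ⟨w, .inl rfl, h⟩
    · exact ⟨x, .inr h1, h2⟩
  · rintro ⟨x, rfl | h1, h2⟩
    · exact .inl h2
    · exact .inr ⟨x, h1, h2⟩

theorem sat_Phi {W : Type} [LinearOrder W] {R : W → W → Prop}
    (hR : ∀ a b, (a = b ∨ R a b) ↔ a ≤ b) (V : ℕ → Set W) (p q r : Fm) (w : W) :
    Sat R V (Phi p q r) w ↔ F (Sat R V p) (Sat R V q) (Sat R V r) w := by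
  simp only [Phi, F, Sat, sat_neg, sat_dp hR]

theorem F_mono {W : Type} [LinearOrder W] {p q r p' q' r' : W → Prop} (hp : ∀ x, p x → p' x)
    (hq : ∀ x, q x → q' x) (hr : ∀ x, r x → r' x) (w : W) (h : F p q r w) : F p' q' r' w := by
  rcases h with ⟨x, h1, h2, h3⟩ | ⟨h1, h2⟩
  · exact .inl ⟨x, h1, hp x h2, hq x h3⟩
  by_cases hpq : ∃ x, w ≤ x ∧ p' x ∧ q' x
  · exact .inl hpq
  have ht : ∀ x, w ≤ x → q' x → ¬ r' x → q x ∧ ¬ r x := by
    intro x hx a b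
    refine ⟨?_, fun c => b (hr x c)⟩
    by_contra c
    exact h1 ⟨x, hx, by
      rintro (d | d | d)
      · exact hpq ⟨x, hx, hp x d, a⟩
      · exact c d
      · exact b (hr x d)⟩
  refine .inr ⟨?_, ?_⟩
  · rintro ⟨x, hx, hn⟩
    exact h1 ⟨x, hx, fun d => hn (d.imp (hp x) (Or.imp (hq x) (hr x)))⟩
  by_cases hx : ∃ x, w ≤ x ∧ q' x ∧ ¬ r' x
  swap
  · exact .inl hx
  obtain ⟨x, hx, a, b⟩ := hx
  have tx := ht x hx a b
  rcases h2 with h2 | ⟨⟨y, hy, py, z, hz, tz⟩, h3⟩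
  · exact absurd ⟨x, hx, tx⟩ h2
  refine .inr ⟨⟨y, hy, hp y py, ?_⟩, ?_⟩
  · rcases le_total y x with c | c
    · exact ⟨x, c, a, b⟩
    · exact absurd ⟨x, hx, tx, y, c, fun d => hpq ⟨y, hy, hp y py, hq y d⟩, z, hz, tz⟩ h3
  · rintro ⟨x', hx', ⟨a', b'⟩, y', hy', c', z', hz', a'', b''⟩
    exact h3 ⟨x', hx', ht x' hx' a' b', y', hy', fun d => c' (hq y' d), z', hz',
      ht z' (hx'.trans (hy'.trans hz')) a'' b''⟩

def phi : Fm := Phi (.lit 0) (.lit 1) (.lit 2)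

def phi' : Fm := Phi (.or (.lit 0) (.lit 3)) (.or (.lit 1) (.lit 4)) (.or (.lit 2) (.lit 5))

theorem valid {W : Type} [LinearOrder W] {R : W → W → Prop}
    (hR : ∀ a b, (a = b ∨ R a b) ↔ a ≤ b) (V : ℕ → Set W) (w : W) :
    Sat R V (.or (neg phi) phi') w := by
  simp only [Sat, sat_neg, phi, phi', sat_Phi hR]
  by_cases h : F (Sat R V (.lit 0)) (Sat R V (.lit 1)) (Sat R V (.lit 2)) w
  · exact .inr (F_mono (fun x hx => .inl hx) (fun x hx => .inl hx) (fun x hx => .inl hx) w h)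
  · exact .inl h

theorem val_Phi {A : Type u} [BooleanAlgebra A] (D : A → A) (θ θ' : ℕ → A) (p q r p' q' r' : Fm)
    (hp : val D θ p = val D θ' p') (hq : val D θ q = val D θ' q') (hr : val D θ r = val D θ' r') :
    val D θ (Phi p q r) = val D θ' (Phi p' q' r') := by
  simp only [Phi, dp, val, val_neg, hp, hq, hr]

theorem mono (L : Set Fm) (hL : Fm.or (neg phi) phi' ∈ L) : MonoIn.{u} L {0, 1, 2} phi := by
  intro A _ D _ _ hV θ₁ θ₂ _ h2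
  have := hV _ hL (fun n => if n < 3 then θ₁ n else θ₂ (n - 3))
  rw [val, val_neg, phi, phi',
    val_Phi D _ θ₁ (.lit 0) (.lit 1) (.lit 2) (.lit 0) (.lit 1) (.lit 2) (by simp [val])
      (by simp [val]) (by simp [val]),
    val_Phi D _ θ₂ (.or (.lit 0) (.lit 3)) (.or (.lit 1) (.lit 4)) (.or (.lit 2) (.lit 5))
      (.lit 0) (.lit 1) (.lit 2) (by simpa [val] using h2 0 (by simp))
      (by simpa [val] using h2 1 (by simp)) (by simpa [val] using h2 2 (by simp))] at this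
  rw [phi]
  rwa [sup_comm, ← himp_eq, himp_eq_top_iff] at this

def md : Fm → ℕ
  | .and φ ψ => max (md φ) (md ψ)
  | .or φ ψ => max (md φ) (md ψ)
  | .dia φ => md φ + 1
  | .box φ => md φ + 1
  | _ => 0

theorem pres {W : Type} (R : W → W → Prop) (V₁ V₂ : ℕ → Set W) (P : Finset ℕ)
    (Z : ℕ → W → W → Prop) (K : ℕ) (symm : ∀ k a b, Z k a b → Z k b a)
    (forth : ∀ k, k < K → ∀ a b a', Z (k + 1) a b → R a a' → ∃ b', R b b' ∧ Z k a' b')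
    (hl : ∀ k a b p, Z k a b → a ∈ V₁ p → b ∈ V₂ p) (hn : ∀ p ∉ P, V₂ p = ∅)
    (α : Fm) (hα : Pos P α) :
    ∀ k, k ≤ K → md α ≤ k → ∀ a b, Z k a b → Sat R V₁ α a → Sat R V₂ α b := by
  induction α with
  | lit p => exact fun k _ _ a b hz h => hl k a b p hz h
  | nlit p => intro k _ _ a b _ _; simp [Sat, hn p hα]
  | bot => exact fun k _ _ a b _ h => h
  | top => exact fun k _ _ a b _ h => h
  | and φ ψ i1 i2 =>
    intro k hk hm a b hz h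
    simp only [md, max_le_iff] at hm
    exact ⟨i1 hα.1 k hk hm.1 a b hz h.1, i2 hα.2 k hk hm.2 a b hz h.2⟩
  | or φ ψ i1 i2 =>
    intro k hk hm a b hz h
    simp only [md, max_le_iff] at hm
    exact h.imp (i1 hα.1 k hk hm.1 a b hz) (i2 hα.2 k hk hm.2 a b hz)
  | dia φ i =>
    rintro (_ | k) hk hm a b hz ⟨x, h1, h2⟩
    · simp [md] at hm
    simp only [md] at hm
    obtain ⟨y, h3, h4⟩ := forth k (by omega) a b x hz h1
    exact ⟨y, h3, i hα k (by omega) (by omega) x y h4 h2⟩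
  | box φ i =>
    rintro (_ | k) hk hm a b hz h y hy
    · simp [md] at hm
    simp only [md] at hm
    obtain ⟨x, h3, h4⟩ := forth k (by omega) b a y (symm _ _ _ hz) hy
    exact i hα k (by omega) (by omega) x y (symm _ _ _ h4) (h x h3)

def U (n : ℕ) : ℕ → Set (Fin n)
  | 0 => {a | a.val = 1}
  | 1 => {a | a.val = 2}
  | 2 => {a | a.val = 0 ∨ 3 ≤ a.val}
  | _ => ∅

def V (n : ℕ) : ℕ → Set (Fin n)
  | 0 => {a | a.val = 2}
  | 1 => {a | a.val = 1 ∨ 3 ≤ a.val}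
  | 2 => {a | a.val = 0 ∨ 2 ≤ a.val}
  | _ => ∅

def T (a b : ℕ) : Prop :=
  (a = 0 ∧ b = 0) ∨ (a = 1 ∧ b = 2) ∨ (a = 2 ∧ b = 1) ∨ (a = 2 ∧ 3 ≤ b) ∨ (3 ≤ a ∧ b = 2) ∨
    (3 ≤ a ∧ 3 ≤ b)

theorem TU {n : ℕ} (a b : Fin n) (p : ℕ) (h : T a b) (ha : a ∈ U n p) : b ∈ V n p := by
  unfold T at h
  rcases p with _ | _ | _ | p <;> simp only [U, V, Set.mem_ofPred_eq, Set.mem_empty_iff_false] at ha ⊢ <;>
    omega

theorem Vn (n : ℕ) : ∀ p ∉ ({0, 1, 2} : Finset ℕ), V n p = ∅ := by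
  intro p hp
  rcases p with _ | _ | _ | p <;> simp_all [V]

theorem Uphi {n : ℕ} {R : Fin (n + 3) → Fin (n + 3) → Prop}
    (hR : ∀ a b, (a = b ∨ R a b) ↔ a ≤ b) : Sat R (U _) phi 0 := by
  rw [phi, sat_Phi hR]
  refine .inr ⟨?_, .inr ⟨⟨⟨1, by omega⟩, by simp, rfl, ⟨2, by omega⟩, by simp [Fin.le_def], rfl, ?_⟩, ?_⟩⟩
  · rintro ⟨x, _, h⟩
    simp only [Sat, U, Set.mem_ofPred_eq] at h
    omega
  · simp [Sat, U]
  · rintro ⟨x, _, ⟨h1, _⟩, y, h2, h3, z, h4, h5, _⟩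
    simp only [Sat, U, Set.mem_ofPred_eq, Fin.le_def] at *
    omega

theorem Vphi {n : ℕ} {R : Fin (n + 3) → Fin (n + 3) → Prop}
    (hR : ∀ a b, (a = b ∨ R a b) ↔ a ≤ b) : ¬ Sat R (V _) phi 0 := by
  rw [phi, sat_Phi hR]
  rintro (⟨x, _, h1, h2⟩ | ⟨_, h | ⟨⟨y, _, h1, z, h2, h3, h4⟩, _⟩⟩)
  · simp only [Sat, V, Set.mem_ofPred_eq] at h1 h2
    omega
  · exact h ⟨⟨1, by omega⟩, by simp, by simp [Sat, V], by simp [Sat, V]⟩
  · simp only [Sat, V, Set.mem_ofPred_eq, Fin.le_def] at *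
    omega

theorem fin {n : ℕ} {R : Fin (n + 3) → Fin (n + 3) → Prop}
    (hR : ∀ a b, (a = b ∨ R a b) ↔ a ≤ b) (α : Fm) (h : ∀ V w, Sat R V (iff phi α) w)
    (h' : Sat R (U _) α 0 → Sat R (V _) α 0) : False := by
  have h1 := (h (U _) 0).1
  have h2 := (h (V _) 0).2
  simp only [Sat, sat_neg] at h1 h2
  have := Uphi hR
  have := Vphi hR
  tauto

theorem step (M k a b a' : ℕ) (hk : k + 4 ≤ M) (ha' : a' < M) (hb : b < M) (hT : T a b)
    (hz : a = b ∨ (a + (k + 1) < M ∧ b + (k + 1) < M)) (ha : a < a') :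
    ∃ c, c < M ∧ b < c ∧ T a' c ∧ (a' = c ∨ (a' + k < M ∧ c + k < M)) := by
  unfold T at hT
  by_cases h1 : a' = 1
  · exact ⟨2, by omega, by omega, by simp [T, h1], by omega⟩
  by_cases h2 : a' = 2
  · by_cases h0 : a = 0
    · exact ⟨1, by omega, by omega, by simp [T, h2], by omega⟩
    · exact ⟨3, by omega, by omega, by simp [T, h2], by omega⟩
  have h3 : 3 ≤ a' := by omega
  by_cases h4 : b < a'
  · exact ⟨a', ha', h4, by simp [T, h3], .inl rfl⟩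
  · exact ⟨b + 1, by omega, by omega, by simp only [T]; omega, by omega⟩

theorem result :
    (∃ (P : Finset ℕ) (φ : Fm), MonoIn.{u} GL3 P φ ∧ ¬ ∃ α, Pos P α ∧ iff φ α ∈ GL3) ∧
    (∃ (P : Finset ℕ) (φ : Fm), MonoIn.{u} Grz3 P φ ∧ ¬ ∃ α, Pos P α ∧ iff φ α ∈ Grz3) := by
  refine ⟨⟨{0, 1, 2}, phi, mono _ (fun n V w => valid (fun a b => le_iff_eq_or_lt.symm) V w), ?_⟩,
    ⟨{0, 1, 2}, phi, mono _ (fun n V w => valid (fun a b => ⟨fun h => h.elim le_of_eq id, .inr⟩)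
      V w), ?_⟩⟩
  · rintro ⟨α, hα, h⟩
    refine fin (n := md α) (fun a b => le_iff_eq_or_lt.symm) α (h _) ?_
    refine pres _ _ _ _ (fun k (a b : Fin (md α + 3)) => T a b ∧ (a.val = b.val ∨
      (a.val + k < md α + 3 ∧ b.val + k < md α + 3))) (md α) ?_ ?_
      (fun k a b p hz => TU a b p hz.1) (Vn _) α hα (md α) le_rfl le_rfl 0 0 (by simp [T])
    · intro k a b
      unfold T
      omega
    · intro k hk a b a' hz ha
      have := step (md α + 3) k a b a' (by omega) a'.2 b.2 hz.1 hz.2 ha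
      obtain ⟨c, h1, h2, h3⟩ := this
      exact ⟨⟨c, h1⟩, h2, h3⟩
  · rintro ⟨α, hα, h⟩
    refine fin (n := 1) (fun a b => ⟨fun h => h.elim le_of_eq id, .inr⟩) α (h _) ?_
    refine pres _ _ _ _ (fun _ (a b : Fin (1 + 3)) => T a b) (md α) ?_ ?_
      (fun k a b p hz => TU a b p hz) (Vn _) α hα (md α) le_rfl le_rfl 0 0 (by simp [T])
    · intro k a b
      unfold T
      omega
    · intro _ _
      unfold T
      decide

end Pool.Agent.Results.MP_4f615a_lc.No
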